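import Pool.Agent.H31.LEV.Targets

/-!
Row GEN of the board `lev_modules`: generic lines.
-/

set_option autoImplicit false

open Complex Filter Topology Set

open Pool.Agent.H31.LEV

namespace Pool.Agent.H98.LEV

theorem rc_compact (a b c d : ℝ) : IsCompact (Rc a b c d) := by
  have h : Rc a b c d = Icc a b ×ℂ Icc c d := by
    ext s
    simp only [Rc, Set.mem_ofPred_eq, mem_reProdIm, mem_Icc]
    tauto
  rw [h]
  exact isCompact_Icc.reProdIm isCompact_Icc

theorem pf_GEN (hFAC : T_FAC) : T_GEN := by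
  intro X _ f U a b c d hU hUp hR hf hne
  have hK : IsCompact (Rc a b c d) := rc_compact a b c d
  have hfin : ∀ i, {z : ℂ | z ∈ Rc a b c d ∧ f i z = 0}.Finite := by
    intro i
    obtain ⟨Z, g, -, h2, -⟩ := hFAC (f i) U (Rc a b c d) hU hUp hK hR (hf i) (hne i)
    refine (Z.toFinset.finite_toSet).subset ?_
    rintro z ⟨hz, hz0⟩
    rw [Finset.mem_coe, Multiset.mem_toFinset]
    exact (h2 z hz).2 hz0
  have hN : {z : ℂ | ∃ i, z ∈ Rc a b c d ∧ f i z = 0}.Finite := by
    have : {z : ℂ | ∃ i, z ∈ Rc a b c d ∧ f i z = 0} =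
        ⋃ i, {z : ℂ | z ∈ Rc a b c d ∧ f i z = 0} := by
      ext z
      simp
    rw [this]
    exact Set.finite_iUnion hfin
  constructor
  · refine (hN.image Complex.re).subset ?_
    rintro x ⟨i, t, h1, h2⟩
    refine ⟨pt x t, ⟨i, h1, h2⟩, ?_⟩
    simp [pt]
  · refine (hN.image Complex.im).subset ?_
    rintro t ⟨i, x, h1, h2⟩
    refine ⟨pt x t, ⟨i, h1, h2⟩, ?_⟩
    simp [pt]

end Pool.Agent.H98.LEV
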